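import Mathlib

/-!
# Up-color domination weight is at most the Roman domination number for bipartite graphs

Let `f` be a Roman dominating function and `X ∪ Y` a bipartition. Colour all of `Y` with `1`, the
vertices of `X` with value `2` by `2` and the other vertices of `X` by `0`; take the vertices of
value `2`, the vertices of `Y` of value `1`, and one neighbour of each vertex of `X` of value `1`.
-/

set_option autoImplicit false

namespace Pool.Agent.Results.MP_ca77af_co.BipartiteHolds

open Finset Classical

variable {V : Type} [Fintype V]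

/-- `c` is a proper colouring by natural numbers -/
def IsColoring (G : SimpleGraph V) (c : V → ℕ) : Prop := ∀ u v, G.Adj u v → c u ≠ c v

/-- `D` is an up-color dominating `c`-set -/
def IsUpColorDominating (G : SimpleGraph V) (c : V → ℕ) (D : Finset V) : Prop :=
  (∀ v, v ∉ D → ∃ d ∈ D, G.Adj v d ∧ c v < c d) ∧ ∀ d ∈ D, c d ≠ 0

/-- the up-color domination weight: the least weight `∑_{d ∈ D} c(d)` over all colourings `c` and
all up-color dominating `c`-sets `D` -/
noncomputable def upColorWeight (G : SimpleGraph V) : ℕ :=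
  sInf {w | ∃ (c : V → ℕ) (D : Finset V), IsColoring G c ∧ IsUpColorDominating G c D ∧
    w = ∑ d ∈ D, c d}

/-- Roman dominating function -/
def IsRoman (G : SimpleGraph V) (f : V → ℕ) : Prop :=
  (∀ v, f v ≤ 2) ∧ ∀ u, f u = 0 → ∃ v, G.Adj u v ∧ f v = 2

/-- Roman domination number -/
noncomputable def romanNumber (G : SimpleGraph V) : ℕ :=
  sInf {w | ∃ f : V → ℕ, IsRoman G f ∧ w = ∑ v, f v}

theorem main {G : SimpleGraph V} (C : V → Bool) (hC : ∀ u v, G.Adj u v → C u ≠ C v)
    {f : V → ℕ} (hf : IsRoman G f) :
    ∃ (c : V → ℕ) (D : Finset V), IsColoring G c ∧ IsUpColorDominating G c D ∧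
      ∑ d ∈ D, c d ≤ ∑ v, f v := by
  obtain ⟨hle, hrom⟩ := hf
  -- a chosen neighbour
  have hch : ∃ ch : V → V, ∀ v, (∃ w, G.Adj v w) → G.Adj v (ch v) := by
    refine ⟨fun v => if h : ∃ w, G.Adj v w then h.choose else v, fun v hv => ?_⟩
    simp only [hv, dif_pos]
    exact hv.choose_spec
  obtain ⟨ch0, hch0⟩ := hch
  set ch : V → V := fun v => if ∃ w, G.Adj v w then ch0 v else v with hchdef
  have hch1 : ∀ v, (∃ w, G.Adj v w) → G.Adj v (ch v) := by
    intro v hv
    simp only [hchdef, hv, if_true]
    exact hch0 v hv
  have hch2 : ∀ v, (¬ ∃ w, G.Adj v w) → ch v = v := by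
    intro v hv
    simp only [hchdef, hv, if_false]
  set c : V → ℕ := fun v => if C v = false then 1 else if f v = 2 then 2 else
    if f v = 1 ∧ ¬ ∃ w, G.Adj v w then 1 else 0 with hc
  set A : Finset V := Finset.univ.filter (fun v => C v = false ∧ f v ≠ 0) with hA
  set B : Finset V := Finset.univ.filter (fun v => C v = true ∧ f v = 2) with hB
  set S : Finset V := Finset.univ.filter (fun v => C v = true ∧ f v = 1) with hS
  have cY : ∀ v, C v = false → c v = 1 := by
    intro v hv
    simp only [hc, hv, if_true]
  have cX2 : ∀ v, C v = true → f v = 2 → c v = 2 := by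
    intro v hv hv2
    simp [hc, hv, hv2]
  have cS : ∀ v ∈ S, c (ch v) = 1 := by
    intro v hv
    rw [hS, mem_filter] at hv
    by_cases hn : ∃ w, G.Adj v w
    · apply cY
      have h1 := hC _ _ (hch1 v hn)
      rw [hv.2.1] at h1
      cases h : C (ch v)
      · rfl
      · exact absurd h.symm h1
    · rw [hch2 v hn]
      simp only [hc, hv.2.1, hv.2.2]
      simp [hn]
  refine ⟨c, A ∪ B ∪ S.image ch, ?_, ⟨?_, ?_⟩, ?_⟩
  · -- proper colouring
    intro u v huv
    have h1 := hC u v huv
    have hcX : ∀ x y, G.Adj x y → C x = true → c x = 0 ∨ c x = 2 := by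
      intro x y hxy hx
      have hn : ∃ w, G.Adj x w := ⟨y, hxy⟩
      simp only [hc, hx]
      by_cases h2 : f x = 2
      · right; simp [h2]
      · left; simp [h2, hn]
    cases hu : C u <;> cases hv : C v
    · rw [hu, hv] at h1; exact absurd rfl h1
    · have := hcX v u huv.symm hv
      rw [cY u hu]
      omega
    · have := hcX u v huv hu
      rw [cY v hv]
      omega
    · rw [hu, hv] at h1; exact absurd rfl h1
  · -- domination
    intro v hv
    simp only [mem_union, not_or] at hv
    obtain ⟨⟨hvA, hvB⟩, hvS⟩ := hv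
    cases hCv : C v
    · -- `v ∈ Y`, so `f v = 0`
      have hf0 : f v = 0 := by
        by_contra hne
        exact hvA (by rw [hA, mem_filter]; exact ⟨mem_univ _, hCv, hne⟩)
      obtain ⟨w, hw, hw2⟩ := hrom v hf0
      have hCw : C w = true := by
        have := hC v w hw
        rw [hCv] at this
        cases h : C w
        · exact absurd h.symm this
        · rfl
      refine ⟨w, ?_, hw, ?_⟩
      · rw [mem_union, mem_union]
        left; right
        rw [hB, mem_filter]
        exact ⟨mem_univ _, hCw, hw2⟩
      · rw [cY v hCv, cX2 w hCw hw2]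
        norm_num
    · -- `v ∈ X`
      have hf2 : f v ≠ 2 := fun h2 => hvB (by rw [hB, mem_filter]; exact ⟨mem_univ _, hCv, h2⟩)
      have hlev := hle v
      have hcases : f v = 0 ∨ f v = 1 := by omega
      rcases hcases with h0 | h1
      · obtain ⟨w, hw, hw2⟩ := hrom v h0
        have hCw : C w = false := by
          have := hC v w hw
          rw [hCv] at this
          cases h : C w
          · rfl
          · exact absurd h.symm this
        refine ⟨w, ?_, hw, ?_⟩
        · rw [mem_union, mem_union]
          left; left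
          rw [hA, mem_filter]
          exact ⟨mem_univ _, hCw, by omega⟩
        · rw [cY w hCw]
          simp [hc, hCv, h0]
      · have hvinS : v ∈ S := by rw [hS, mem_filter]; exact ⟨mem_univ _, hCv, h1⟩
        have hn : ∃ w, G.Adj v w := by
          by_contra hn
          exact hvS (Finset.mem_image.2 ⟨v, hvinS, hch2 v hn⟩)
        refine ⟨ch v, ?_, hch1 v hn, ?_⟩
        · rw [mem_union]
          right
          exact Finset.mem_image_of_mem _ hvinS
        · rw [cS v hvinS]
          simp [hc, hCv, h1, hn]
  · -- no colour zero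
    intro d hd
    rw [mem_union, mem_union] at hd
    rcases hd with (hd | hd) | hd
    · rw [hA, mem_filter] at hd
      rw [cY d hd.2.1]
      norm_num
    · rw [hB, mem_filter] at hd
      rw [cX2 d hd.2.1 hd.2.2]
      norm_num
    · obtain ⟨v, hv, rfl⟩ := Finset.mem_image.1 hd
      rw [cS v hv]
      norm_num
  · -- weight
    have h1 : ∑ d ∈ A ∪ B ∪ S.image ch, c d ≤
        ∑ d ∈ A, c d + ∑ d ∈ B, c d + ∑ d ∈ S.image ch, c d := by
      have e1 := Finset.sum_union_inter (s₁ := A ∪ B) (s₂ := S.image ch) (f := c)
      have e2 := Finset.sum_union_inter (s₁ := A) (s₂ := B) (f := c)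
      omega
    have h2 : ∑ d ∈ A, c d ≤ ∑ d ∈ A, f d := by
      apply Finset.sum_le_sum
      intro d hd
      rw [hA, mem_filter] at hd
      rw [cY d hd.2.1]
      have := hd.2.2
      omega
    have h3 : ∑ d ∈ B, c d ≤ ∑ d ∈ B, f d := by
      apply Finset.sum_le_sum
      intro d hd
      rw [hB, mem_filter] at hd
      rw [cX2 d hd.2.1 hd.2.2, hd.2.2]
    have h4 : ∑ d ∈ S.image ch, c d ≤ ∑ d ∈ S, f d := by
      calc ∑ d ∈ S.image ch, c d = ∑ d ∈ S.image ch, 1 := by
            apply Finset.sum_congr rfl
            intro d hd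
            obtain ⟨v, hv, rfl⟩ := Finset.mem_image.1 hd
            exact cS v hv
        _ = (S.image ch).card := by simp
        _ ≤ S.card := Finset.card_image_le
        _ = ∑ d ∈ S, 1 := by simp
        _ ≤ ∑ d ∈ S, f d := by
            apply Finset.sum_le_sum
            intro d hd
            rw [hS, mem_filter] at hd
            rw [hd.2.2]
    have h5 : ∑ d ∈ A, f d + ∑ d ∈ B, f d + ∑ d ∈ S, f d ≤ ∑ v, f v := by
      have d1 : Disjoint A B := by
        rw [Finset.disjoint_left]
        intro x hx hy
        rw [hA, mem_filter] at hx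
        rw [hB, mem_filter] at hy
        rw [hx.2.1] at hy
        exact absurd hy.2.1 (by simp)
      have d2 : Disjoint (A ∪ B) S := by
        rw [Finset.disjoint_left]
        intro x hx hy
        rw [hS, mem_filter] at hy
        rw [mem_union, hA, hB, mem_filter, mem_filter] at hx
        rcases hx with hx | hx
        · rw [hx.2.1] at hy
          exact absurd hy.2.1 (by simp)
        · omega
      rw [← Finset.sum_union d1, ← Finset.sum_union d2]
      exact Finset.sum_le_sum_of_subset (Finset.subset_univ _)
    omega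

theorem bipartite_le {G : SimpleGraph V} (C : V → Bool) (hC : ∀ u v, G.Adj u v → C u ≠ C v) :
    upColorWeight G ≤ romanNumber G := by
  have hne : {w | ∃ f : V → ℕ, IsRoman G f ∧ w = ∑ v, f v}.Nonempty :=
    ⟨_, fun _ => 2, ⟨fun _ => le_rfl, fun u hu => by simp at hu⟩, rfl⟩
  obtain ⟨f, hf, hs⟩ := Nat.sInf_mem hne
  obtain ⟨c, D, h1, h2, h3⟩ := main C hC hf
  unfold romanNumber
  rw [hs]
  exact le_trans (Nat.sInf_le ⟨c, D, h1, h2, rfl⟩) h3

theorem colorable_le {G : SimpleGraph V} (h : G.IsBipartite) :
    upColorWeight G ≤ romanNumber G := by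
  obtain ⟨col⟩ := h
  refine bipartite_le (fun v => decide (col v = 0)) ?_
  intro u v huv hcon
  have h1 := col.valid huv
  apply h1
  simp only [decide_eq_decide] at hcon
  have : ∀ a b : Fin 2, (a = 0 ↔ b = 0) → a = b := by decide
  exact this _ _ hcon

/-- Every finite tree `T`, and more generally every finite bipartite graph, satisfies
`Ω_uc ≤ γ_r`. -/
theorem result : (∀ (V : Type) [Fintype V] (T : SimpleGraph V), T.IsTree →
      upColorWeight T ≤ romanNumber T) ∧
    (∀ (V : Type) [Fintype V] (G : SimpleGraph V), G.IsBipartite →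
      upColorWeight G ≤ romanNumber G) :=
  ⟨fun _ _ _ hT => colorable_le hT.2.isBipartite, fun _ _ _ hG => colorable_le hG⟩

end Pool.Agent.Results.MP_ca77af_co.BipartiteHolds
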